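import Pool.Agent.helper59.ZB.SpecH
import Pool.Agent.helper59.FI.Base

/-!
# MP_baa4d7_al, project ZB, block H in the T-form: row HCTT (adaptation of ZCT of LZ)
-/

set_option autoImplicit false

namespace Pool.Agent.GB

open Pool.Agent.helper58.DC Pool.Agent.DI Pool.Agent.GR Pool.Agent.OB Pool.Agent.DR Pool.Agent.FI Pool.Agent.FI3 Pool.Agent.FI4 Pool.Agent.LE Pool.Agent.BR

open scoped Pointwise

theorem HCTT_card {G : Type} [Group G] (T K : Subgroup G) :
    ((T : Set G) * (K : Set G)).ncard = K.relIndex T * Nat.card K := by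
  rw [← Nat.card_coe_set_eq, Subgroup.card_mul_eq_card_subgroup_mul_card_quotient, mul_comm]
  congr 1
  have h1 : ((T : Set G).image (QuotientGroup.mk : G → G ⧸ K)) = MulAction.orbit T ((1 : G) : G ⧸ K) := by
    ext q
    constructor
    · rintro ⟨t, ht, rfl⟩
      refine ⟨⟨t, ht⟩, ?_⟩
      change ((t * 1 : G) : G ⧸ K) = _
      rw [mul_one]
    · rintro ⟨t, rfl⟩
      refine ⟨t, t.2, ?_⟩
      change _ = (((t : G) * 1 : G) : G ⧸ K)
      rw [mul_one]
  have h2 : MulAction.stabilizer T ((1 : G) : G ⧸ K) = K.subgroupOf T := by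
    ext t
    rw [MulAction.mem_stabilizer_iff, Subgroup.mem_subgroupOf]
    have h3 : t • ((1 : G) : G ⧸ K) = ((t : G) : G ⧸ K) := by
      change (((t : G) * 1 : G) : G ⧸ K) = _
      rw [mul_one]
    rw [h3, eq_comm, QuotientGroup.eq]
    simp
  rw [h1, Nat.card_coe_set_eq, ← MulAction.index_stabilizer, h2]
  rfl

theorem HCTT (hFUZ : FUZ_stmt) (hNTB : NTB_stmt) (hFEQ : FEQ_stmt) : HCTT_stmt := by
  intro p M hS G _ _ D T x θ χ hZ z hz
  have hzD : z ∈ D := hZ.tle hz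
  have hzc : z ∈ cz D := hZ.tcz hz
  have hcK : cz D ≤ Cz (⊤ : Subgroup G) z := by
    intro c hc
    rw [mem_Cz]
    exact ⟨Subgroup.mem_top c, (Subgroup.mem_centralizer_iff.1 hc) z hzD⟩
  have hDK : D ≤ Cz (⊤ : Subgroup G) z := by
    intro d hd
    rw [mem_Cz]
    exact ⟨Subgroup.mem_top d, ((Subgroup.mem_centralizer_iff.1 hzc) d hd).symm⟩
  have hth := hZ.rt.th
  refine ⟨(Cz (⊤ : Subgroup G) z).relIndex (TT M D θ), fun h => (hNTB p M hS G D x θ χ hZ.rt).2 (h.trans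
    (Subgroup.relIndex_dvd_of_le_left _ (sup_le hDK hcK))), ?_⟩
  rw [← HCTT_card]
  refine congrArg Set.ncard (Set.ext fun g => ?_)
  rw [Set.mem_setOf_eq, Set.mem_mul]
  constructor
  · rintro ⟨h1, h2⟩
    obtain ⟨τ, hτ, k, hk, hg⟩ := hFUZ p M hS G D x θ χ hZ.rt z hzD hzc g (hZ.tle h1) (hZ.tcz h1) h2.symm
    exact ⟨τ, hτ, k, hk, hg.symm⟩
  · rintro ⟨t, ht, k, hk, rfl⟩
    have ht' : t ∈ TT M D θ := ht
    have hk' : k ∈ Cz (⊤ : Subgroup G) z := hk
    have hkz := (mem_Cz.1 hk').2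
    constructor
    · have h1 : t * k * z * (t * k)⁻¹ = t * z * t⁻¹ := by
        calc t * k * z * (t * k)⁻¹ = t * (k * z) * k⁻¹ * t⁻¹ := by group
          _ = t * (z * k) * k⁻¹ * t⁻¹ := by rw [hkz]
          _ = t * z * t⁻¹ := by group
      rw [h1]
      exact hZ.tnz t ht'.1 z hz
    · have h1 : cjF (t * k)⁻¹ θ = funMap (MulAut.conj k⁻¹) (funMap (MulAut.conj t⁻¹) θ) := by
        rw [← funMap_mul, mul_inv_rev]
      rw [h1]
      refine (SB_inner ((Cz (⊤ : Subgroup G) z).inv_mem hk') _).trans ?_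
      have ht'' := (TT M D θ).inv_mem ht'
      refine TRNb hcK ?_ (fun y hy => IrrOn_zero hth hy) ht''.2
      intro y hy
      rw [funMap_apply]
      refine IrrOn_zero hth fun h2 => hy ?_
      have h3 := cz_conj ht''.1 h2
      have h4 : t⁻¹ * (t⁻¹⁻¹ * y * t⁻¹) * t⁻¹⁻¹ = y := by group
      rwa [h4] at h3

end Pool.Agent.GB
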