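import Pool.Agent.helper58.ZB.SpecN
import Pool.Agent.helper57.BR.ORS

/-!
# MP_baa4d7_al, project ZB, block N: row ORB2, orbits of the map `l ↦ l ^ (1 + p ^ b)`
-/

set_option autoImplicit false

namespace Pool.Agent.GB

open Pool.Agent.helper58.DC Pool.Agent.DI Pool.Agent.GR Pool.Agent.OB Pool.Agent.DR Pool.Agent.FI Pool.Agent.FI3 Pool.Agent.FI4 Pool.Agent.LE Pool.Agent.BR

/-- the arithmetic of `5` modulo powers of `2` -/
theorem ORB2_two {h n : ℕ} (hd : 2 ^ (h + 3) ∣ 5 ^ n - 1) : 2 ^ (h + 1) ∣ n := by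
  have : Fact (Nat.Prime 2) := ⟨Nat.prime_two⟩
  rcases Nat.eq_zero_or_pos n with rfl | hn
  · exact dvd_zero _
  have hne : 5 ^ n - 1 ≠ 0 := by
    have : 1 < 5 ^ n := Nat.one_lt_pow hn.ne' (by norm_num)
    omega
  rcases Nat.even_or_odd n with he | ho
  · have h1 : h + 3 ≤ padicValNat 2 (5 ^ n - 1) := (padicValNat_dvd_iff_le hne).mp hd
    have h2 := padicValNat.pow_two_sub_pow (x := 5) (y := 1) (by norm_num) (by norm_num) (by norm_num) (n := n) hn.ne' he
    have h3 : padicValNat 2 (5 + 1) = 1 := by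
      have h4 : (5 + 1 : ℕ) = 2 * 3 := by norm_num
      rw [h4, padicValNat.mul (by norm_num) (by norm_num), padicValNat_self, padicValNat.eq_zero_of_not_dvd (by norm_num : ¬ 2 ∣ 3)]
    have h4 : padicValNat 2 (5 - 1) = 2 := by
      have h5 : (5 - 1 : ℕ) = 2 ^ 2 := by norm_num
      rw [h5, padicValNat.prime_pow]
    rw [one_pow, h3, h4] at h2
    exact (padicValNat_dvd_iff_le hn.ne').mpr (by omega)
  · exfalso
    have h1 : 8 ∣ 5 ^ n - 1 := by
      refine dvd_trans ?_ hd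
      have : (8 : ℕ) = 2 ^ 3 := by norm_num
      rw [this]
      exact pow_dvd_pow 2 (by omega)
    obtain ⟨k, rfl⟩ := ho
    have h2 : 5 ^ (2 * k + 1) % 8 = 5 := by
      rw [pow_succ, pow_mul, Nat.mul_mod, Nat.pow_mod]
      norm_num
    have h3 : 0 < 5 ^ (2 * k + 1) := by positivity
    generalize 5 ^ (2 * k + 1) = m at h1 h2 h3
    omega

/-- the arithmetic of `1 + p ^ b` -/
theorem ORB2_lte {p : ℕ} (hp : p.Prime) {h n : ℕ} (hd : p ^ (h + bb p + 1) ∣ (1 + p ^ bb p) ^ n - 1) : p ^ (h + 1) ∣ n := by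
  by_cases hp2 : p = 2
  · subst hp2
    have hb : bb 2 = 2 := by simp [bb]
    rw [hb] at hd
    exact ORB2_two (by simpa using hd)
  · have hb : bb p = 1 := by simp [bb, hp2]
    rw [hb, pow_one] at hd
    exact ORS_lte hp hp2 hd

theorem ORB2 : ORB2_stmt := by
  classical
  intro p hp h Λ _ _ hP f hf
  have : Fact p.Prime := ⟨hp⟩
  rw [finsum_mem_eq_finite_toFinset_sum f (Set.toFinite {l : Λ | l ^ p ^ (h + bb p) ≠ 1})]
  have hb : 1 ≤ bb p := by
    unfold bb
    split <;> norm_num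
  have hcop : p.Coprime (1 + p ^ bb p) := by
    obtain ⟨c, hc⟩ : ∃ c, bb p = c + 1 := ⟨bb p - 1, by omega⟩
    rw [hc, pow_succ, mul_comm]
    simp
  have hinj : Function.Injective (fun l : Λ => l ^ (1 + p ^ bb p)) := (hP.powEquiv hcop).injective
  have hmain := ORS_orb (fun l : Λ => l ^ (1 + p ^ bb p)) hinj (p ^ (h + 1)) f hf _
    (Set.toFinite {l : Λ | l ^ p ^ (h + bb p) ≠ 1}).toFinset rfl (by
      intro l hl
      rw [Set.Finite.mem_toFinset] at hl ⊢
      intro h1
      apply hl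
      apply hinj
      show (l ^ p ^ (h + bb p)) ^ (1 + p ^ bb p) = 1 ^ (1 + p ^ bb p)
      rw [one_pow, ← pow_mul, mul_comm, pow_mul]
      exact h1) (by
      intro l hl n hn
      rw [Set.Finite.mem_toFinset] at hl
      rw [pow_iterate] at hn
      have hn' : l ^ (1 + p ^ bb p) ^ n = l := hn
      have hpos : 1 ≤ (1 + p ^ bb p) ^ n := Nat.one_le_pow _ _ (by omega)
      have h1 : l ^ ((1 + p ^ bb p) ^ n - 1) = 1 := by
        have h2 : l ^ ((1 + p ^ bb p) ^ n - 1) * l = 1 * l := by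
          rw [← pow_succ, Nat.sub_add_cancel hpos, one_mul]
          exact hn'
        exact mul_right_cancel h2
      have h3 := orderOf_dvd_of_pow_eq_one h1
      obtain ⟨a, ha⟩ := (IsPGroup.iff_orderOf.mp hP) l
      have h4 : h + bb p + 1 ≤ a := by
        by_contra hlt
        apply hl
        rw [← orderOf_dvd_iff_pow_eq_one, ha]
        exact pow_dvd_pow p (by omega)
      rw [ha] at h3
      exact ORB2_lte hp ((pow_dvd_pow p h4).trans h3))
  rw [Nat.cast_pow] at hmain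
  exact hmain

end Pool.Agent.GB
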